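import Pool.Agent.HQ.MainFin

/-!
MP_7936f4_al, Q1, full answer (yes): every hyperbolic group admits a uniformly quasiconformal discrete action
on a sphere of dimension n ≥ 2.

Authors of this development: helper84, helper87, helper68, helper90 (with many proofs of single modules by other
members of the team).

Outline of the proof.
1. (Bs) A hyperbolic group (G,d) has a rough similarity f into real hyperbolic space (Bonk-Schramm), normalised by
   f(1) = 0.  Ball model of R^M.
2. (E) THEOREM E: over the space of measures with bounded support on G there is an orthogonal cocycle A(g,x) of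
   bounded dimension L, Lipschitz in x uniformly in g, which maps the colour e_(c a) to e_(c (ga)) for all a near
   supp x (c : G → Fin L a colouring, injective on large balls).  It is obtained from a Lipschitz embedding of
   the location measures into a space of projections (Lipschitz maps into Grassmannians extend over the ball of
   finite dimension) and a Gram-Schmidt correction.
3. (V, LP, FL, GA) In R^L x ball of R^M the hypersurface Phi = C, Phi(X,z) = inf over signed measures psi of mass 1 of
   (sum |psi a| om(f a, z) + E |X - sum psi a e_(c a)|), is isotoped along a bounded relatively Lipschitz vector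
   field to the hypersurface Psi = 1, on which G acts by the cocycle, uniformly bi-Lipschitz at small relative
   scale, with equivariant locations in G.
4. (S) The domain Phi < C is star-shaped in suitable coordinates, so that radial projection gives the unit
   sphere of R^(L+M); the action is near each point a quasi-similarity with uniform constants.
5. (Q) Extension to the whole sphere, uniform quasiconformality, discreteness.
-/

namespace Pool.Agent.Results.MP_7936f4_al.HyperbolicGroups

universe u

/-- `g` is a product of `n` elements, each of which is in `S` or is the inverse of an element of `S`. -/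
def IsWord {G : Type u} [Group G] (S : Finset G) (n : ℕ) (g : G) : Prop :=
  ∃ l : List G, l.length = n ∧ (∀ s ∈ l, s ∈ S ∨ s⁻¹ ∈ S) ∧ l.prod = g

/-- The word metric of `S`. -/
noncomputable def wordDist {G : Type u} [Group G] (S : Finset G) (a b : G) : ℕ :=
  sInf {n | IsWord S n (a⁻¹ * b)}

/-- A hyperbolic group: a finitely generated group such that the word metric of some finite generating set
satisfies the four point condition of Gromov. -/
def IsHyperbolic (G : Type u) [Group G] : Prop :=
  ∃ S : Finset G, Subgroup.closure (S : Set G) = ⊤ ∧ ∃ δ : ℕ, ∀ a b c w : G,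
    wordDist S a c + wordDist S b w ≤
      max (wordDist S a b + wordDist S c w) (wordDist S b c + wordDist S a w) + 2 * δ

/-- The unit sphere of `ℝ^(n+1)`. -/
def Sph (n : ℕ) : Type := Metric.sphere (0 : EuclideanSpace ℝ (Fin (n + 1))) 1

/-- The Euclidean distance on the unit sphere. -/
noncomputable instance (n : ℕ) : MetricSpace (Sph n) :=
  inferInstanceAs (MetricSpace (Metric.sphere (0 : EuclideanSpace ℝ (Fin (n + 1))) 1))

/-- The group of homeomorphisms of the sphere. -/
def HomeoS (n : ℕ) : Type := Sph n ≃ₜ Sph n

noncomputable instance (n : ℕ) : Group (HomeoS n) := inferInstanceAs (Group (Sph n ≃ₜ Sph n))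

/-- The value `f x`. -/
def HomeoS.app {n : ℕ} (f : HomeoS n) (x : Sph n) : Sph n := Homeomorph.toEquiv f x

/-- Quasiconformal with constant `K` in the metric sense: for every `z` and all `y`, `y'` close to `z`,
`|y - z| ≤ |y' - z|` implies `|f y - f z| ≤ K |f y' - f z|`. -/
def IsQC {n : ℕ} (K : ℝ) (f : Sph n → Sph n) : Prop :=
  ∀ z, ∃ r > 0, ∀ y y', dist y z < r → dist y' z < r → dist y z ≤ dist y' z →
    dist (f y) (f z) ≤ K * dist (f y') (f z)

/-- Near every point `z` the map is bi-Lipschitz with distortion bounded by `K`: there is a scaling factor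
`m > 0` with `m |y - y'| / K ≤ |f y - f y'| ≤ K m |y - y'|` for all `y`, `y'` close to `z`. -/
def IsLocSim {n : ℕ} (K : ℝ) (f : Sph n → Sph n) : Prop :=
  ∀ z, ∃ r > 0, ∃ m > 0, ∀ y y', dist y z < r → dist y' z < r →
    dist (f y) (f y') ≤ K * m * dist y y' ∧ m * dist y y' ≤ K * dist (f y) (f y')

/-- The uniform distance of `f` and `g` is at least `ε`: `|f x - g x| ≥ ε` for some `x`. -/
def Apart {n : ℕ} (ε : ℝ) (f g : Sph n → Sph n) : Prop := ∃ x, ε ≤ dist (f x) (g x)

/-- Every hyperbolic group `G` has a uniformly quasiconformal discrete action on a sphere of dimension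
`n ≥ 2`: an injective homomorphism into the homeomorphism group of the sphere, by `K`-quasiconformal maps (which
are even near every point bi-Lipschitz with distortion at most `K`), whose image is (uniformly) discrete for the
uniform distance. -/
theorem result (G : Type u) [Group G] (hG : IsHyperbolic G) :
    ∃ (n : ℕ) (K ε : ℝ) (ρ : G →* HomeoS n), 2 ≤ n ∧ 0 < ε ∧ Function.Injective ρ ∧
      (∀ g, IsQC K (ρ g).app) ∧ (∀ g, IsLocSim K (ρ g).app) ∧
      ∀ g h, g ≠ h → Apart ε (ρ g).app (ρ h).app := by
  obtain ⟨n, hn, A, ε, hA, hε, ρ, h1, h2, h3, h4⟩ := Pool.HQ.full_answer G hG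
  refine ⟨n, max A (A ^ 2), ε, ρ, hn, hε, h1, ?_, ?_, h4⟩
  · intro g z
    obtain ⟨r, hr, h⟩ := h3 g z
    refine ⟨r, hr, fun y y' hy hy' hyy => (h y y' hy hy' hyy).trans ?_⟩
    exact mul_le_mul_of_nonneg_right (le_max_right _ _) dist_nonneg
  · intro g z
    obtain ⟨r, hr, m, hm, h⟩ := h2 g z
    refine ⟨r, hr, m, hm, fun y y' hy hy' => ?_⟩
    obtain ⟨k1, k2⟩ := h y y' hy hy'
    refine ⟨k1.trans ?_, k2.trans ?_⟩
    · exact mul_le_mul_of_nonneg_right (mul_le_mul_of_nonneg_right (le_max_left _ _) hm.le)
        dist_nonneg
    · exact mul_le_mul_of_nonneg_right (le_max_left _ _) dist_nonneg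

end Pool.Agent.Results.MP_7936f4_al.HyperbolicGroups
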